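import Pool.Agent.H76.IN.Cn
import Pool.Agent.H88.AB.Fm
import Pool.Agent.H30.MG.Co

/-!
Project INF (MP_78d38b_nt, infinite case of MG): the local classes at one place (no row, proved).
-/

set_option autoImplicit false
set_option linter.unusedSectionVars false
open scoped Classical

open WithZero NumberField IsDedekindDomain H76PP H36CY H30MG H30CY H76AB H36MX H38RT H76MQ H76MX
open Pool.Agent.H42.PC H88AB H36IN H36MG H73P2 H76IN
open H38T1 (SC sc scu rep rep_ne sc_rep sc_mul sc_eq_zero sc_surj eo la OddP)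

namespace H30IN

section Up

variable {K F₁ Λ : Type} [Field K] [NumberField K] [Field F₁] [NumberField F₁] [Field Λ]
  [NumberField Λ] [Algebra K F₁] [Algebra K Λ] [Algebra F₁ Λ] [IsScalarTower K F₁ Λ]
  [IsGalois K F₁] [IsGalois K Λ]

/-- The element of the first layer gives the class at the layer `Λ`. -/
theorem isM_up {u : HeightOneSpectrum (𝓞 K)} {W₁ : HeightOneSpectrum (𝓞 F₁)}
    {w₀ : HeightOneSpectrum (𝓞 Λ)} (hw : dn F₁ w₀ = W₁) (hu : dn K W₁ = u)
    (hov : Pool.Agent.H10.Over u W₁) (ho : Pool.Agent.H10.Over u w₀) {δ : Set (F₁ ≃ₐ[K] F₁)}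
    {m : Kv u} (h : RhoO W₁ hov δ m) {S : Set (Λ ≃ₐ[K] Λ)}
    (hS : ∀ g ∈ Dec K w₀, g ∈ S ↔ AlgEquiv.restrictNormalHom F₁ g ∈ δ) : IsM ho S m := by
  subst hw
  have hKW : dn K (dn F₁ w₀) = dn K w₀ := H30CY.dn_tower w₀
  rw [hKW] at hu
  subst hu
  obtain ⟨ρ, h0, h1, h2, h3⟩ := h
  have hres : ∀ g ∈ Dec K w₀, AlgEquiv.restrictNormalHom F₁ g ∈ Dec K (dn F₁ w₀) := by
    intro g hg
    rw [← dec_map (N₀ := F₁) w₀]
    exact ⟨g, hg, rfl⟩
  refine ⟨algebraMap F₁ Λ ρ, ⟨(map_ne_zero _).2 h0, fun g hg hgS => ?_, fun g hg hgS => ?_⟩,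
    m_up (F := F₁) hov h3⟩
  · rw [← res_apply, h1 _ (hres g hg) ((hS g hg).1 hgS), map_neg]
  · rw [← res_apply, h2 _ (hres g hg) (fun h => hgS ((hS g hg).2 h))]

end Up

variable {K F : Type} [Field K] [NumberField K] [Field F] [Algebra K F] {F₁ : IntermediateField K F}
  [NumberField F₁] [IsGalois K F₁] {η : (u : HeightOneSpectrum (𝓞 K)) → SC (Kv u)} {n k : ℕ}

/-- The places of the configuration. -/
def PlC (F₁ : IntermediateField K F) [NumberField F₁] [IsGalois K F₁]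
    (η : (u : HeightOneSpectrum (𝓞 K)) → SC (Kv u)) (n k : ℕ) (u : HeightOneSpectrum (𝓞 K)) : Prop :=
  ((2 : 𝓞 K) ∈ u.asIdeal ∧ (Sp K F u ∨ PlN F₁ η n k u)) ∨ u ∈ AuxI F₁ k η n

theorem nc_bot {G : Type*} [Group G] : NC (⊥ : Subgroup G) := by
  refine ⟨fun x hx y hy => ?_, fun x hx y => ?_⟩
  · rw [Subgroup.mem_bot.1 hx, Subgroup.mem_bot.1 hy]
  · rw [Subgroup.mem_bot.1 hx, mul_one, mul_inv_cancel]
    exact Subgroup.one_mem _

/-- The decomposition groups at the places of the configuration. -/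
theorem nc_layer (hdeg : DegOk K F) (hk : n ≤ 2 ^ k) {u : HeightOneSpectrum (𝓞 K)}
    (hu : PlC F₁ η n k u) {Λ : IntermediateField K F} [NumberField Λ] [IsGalois K Λ] (hle : F₁ ≤ Λ)
    {w : HeightOneSpectrum (𝓞 Λ)} (hw : dn K w = u) : NC (Dec K w) := by
  have hD : ∀ {p : HeightOneSpectrum (𝓞 K)}, PlN F₁ η n k p → ∀ {w : HeightOneSpectrum (𝓞 Λ)},
      dn K w = p → NC (Dec K w) := by
    intro p hp w hw
    have h1 := hp.all Λ inferInstance
    exact ⟨h1.comm w hw, h1.conj w hw⟩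
  rcases hu with ⟨-, h | h⟩ | ⟨h6, hram, h | ⟨p, hp2, hp, g₁, hg⟩⟩
  · rw [sp_dec h hw]
    exact nc_bot
  · exact hD h hw
  · rw [sp_dec h hw]
    exact nc_bot
  · obtain ⟨-, x, hx, he⟩ := auxN_dec hdeg hk hp hram hg hle hw
    rw [he]
    exact (hD hp (wc_dn (N := Λ) p)).mono (Subgroup.zpowers_le.2 hx)

/-- The auxiliary places: the decomposition groups are cyclic. -/
theorem cyc_aux (hdeg : DegOk K F) (hk : n ≤ 2 ^ k) {u : HeightOneSpectrum (𝓞 K)}
    (hu : u ∈ AuxI F₁ k η n) {Λ : IntermediateField K F} [NumberField Λ] [IsGalois K Λ]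
    (hle : F₁ ≤ Λ) {w : HeightOneSpectrum (𝓞 Λ)} (hw : dn K w = u) (T : Subgroup (Λ ≃ₐ[K] Λ)) :
    CyT (Dec K w) T := by
  have _ : FiniteDimensional K Λ := Module.Finite.of_restrictScalars_finite ℚ K Λ
  have h1 : ∃ x, Dec K w = Subgroup.zpowers x := by
    obtain ⟨h6, hram, h | ⟨p, hp2, hp, g₁, hg⟩⟩ := hu
    · exact ⟨1, by rw [sp_dec h hw, Subgroup.zpowers_one_eq_bot]⟩
    · obtain ⟨-, x, hx, he⟩ := auxN_dec hdeg hk hp hram hg hle hw
      exact ⟨x, he⟩
  obtain ⟨x, hx⟩ := h1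
  rw [hx]
  refine ⟨x, Subgroup.mem_zpowers x, fun h hh => ?_⟩
  rw [← mem_powers_iff_mem_zpowers] at hh
  obtain ⟨i, hi⟩ := hh
  exact ⟨i, 1, T.one_mem, by rw [mul_one]; exact hi.symm⟩

/-- The local classes: all places of the configuration together. -/
theorem loc_allI (hη2 : EtaTwo η) (hηo : EtaOdd η) (hdeg : DegOk K F) (hk1 : 1 ≤ k) (hk : n ≤ 2 ^ k)
    {u : HeightOneSpectrum (𝓞 K)} (hu : PlC F₁ η n k u) {Λ : IntermediateField K F} [NumberField Λ]
    [IsGalois K Λ] (hle : F₁ ≤ Λ) {M N : Type} [Field M] [NumberField M] [Field N] [NumberField N]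
    [Algebra K M] [Algebra K N] [Algebra M N] [Algebra Λ N] [IsScalarTower K M N]
    [IsScalarTower K Λ N] [IsGalois K N] {T : Subgroup (Λ ≃ₐ[K] Λ)}
    (cyc : ∀ u : HeightOneSpectrum (𝓞 K), (2 : 𝓞 K) ∈ u.asIdeal → CyT (Dc K Λ u) T)
    (hunr : (2 : 𝓞 K) ∉ u.asIdeal → ∀ W : HeightOneSpectrum (𝓞 N), dn K W = u → ¬ Ram K W)
    {μ : M} {ρ : N} (hρ0 : ρ ≠ 0) (hρ : ρ ^ 2 = algebraMap M N μ) {U : Subgroup (N ≃ₐ[K] N)}
    (hU : U.Normal) (hUM : ∀ h ∈ U, ∀ x : M, h (algebraMap M N x) = algebraMap M N x)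
    (hUρ : ∀ h ∈ U, h ρ = ρ)
    (hTc : ∀ W : HeightOneSpectrum (𝓞 N), dn K W = u →
      (∀ h ∈ Dec K W, AlgEquiv.restrictNormalHom Λ h ∈ T ↔ h ∈ U) ∧ DCase W U M ρ)
    {s : ZMod 2} {A B : 𝓞 K} {e : Fin 3 → Kv u}
    (hs : Spl (algebraMap K (Kv u) (A : K)) (algebraMap K (Kv u) (B : K)) e)
    (hL : LpM η s u A B e) :
    LocCl u e μ (xs η s u (⟨Λ, inferInstance, inferInstance, hle, T, cyc⟩ : Ix F₁)) := by
  have hp2 : IsPGroup 2 (Λ ≃ₐ[K] Λ) := by
    have _ : FiniteDimensional K Λ := Module.Finite.of_restrictScalars_finite ℚ K Λ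
    obtain ⟨r, hr⟩ := hdeg Λ inferInstance
    exact IsPGroup.of_card (n := r) (by rw [IsGalois.card_aut_eq_finrank, hr])
  by_cases h2 : (2 : 𝓞 K) ∈ u.asIdeal
  · obtain ⟨hδ, h1, h16⟩ := hL.1 h2
    obtain ⟨g0, hg0, hη'⟩ := hη2 u h2
    have hu' : Sp K F u ∨ PlN F₁ η n k u := by
      rcases hu with ⟨-, h⟩ | h
      · exact h
      · exact absurd h2 (two_of_six h.1)
    -- a place of `Λ` above the chosen place of `F₁`
    let _ : Algebra F₁ Λ := (IntermediateField.inclusion hle).toRingHom.toAlgebra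
    have _ : IsScalarTower K F₁ Λ := IsScalarTower.of_algebraMap_eq fun _ => rfl
    obtain ⟨w₀, hw₀⟩ := exists_above (L := Λ) (Wc K F₁ u)
    have hu0 : dn K w₀ = u := by
      rw [← H30CY.dn_tower (N₀ := F₁) w₀, hw₀, wc_dn]
    obtain ⟨W, hW⟩ := exists_above (L := N) w₀
    have hKW : dn K W = u := by
      rw [← H30CY.dn_tower (N₀ := Λ) W, hW, hu0]
    obtain ⟨hT, hcase⟩ := hTc W hKW
    have hdec : Dec K w₀ = Dc K Λ u := by
      rcases hu' with h | h
      · rw [sp_dec h hu0]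
        exact (sp_dec h (wc_dn (N := Λ) u)).symm
      · exact (h.all Λ inferInstance).dec hu0
    unfold xs
    rw [if_pos h2]
    show LocCl u e μ (if rs hle '' clS (Dc K Λ u) T = ∅ then η u else
      mc F₁ u (rs hle '' clS (Dc K Λ u) T))
    rcases hu' with h | h
    · have hbot : Dc K Λ u ≤ T := by
        rw [← hdec, sp_dec h hu0]
        exact bot_le
      rw [cl_empty hbot, Set.image_empty, if_pos rfl, hη']
      have h3 := loc_two hW hu0 (H30MG.over_of hu0) (two_lt_of h2) hs hδ h1 h16 hρ0 hρ hU hUM hUρ hT hcase hg0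
        (m := 1) (fun hDT => absurd (by rw [hdec]; exact hbot) hDT)
      rwa [if_pos (by rw [hdec]; exact hbot)] at h3
    · have H := ld_of hdeg hk1 hk h hle
      by_cases hDT : Dc K Λ u ≤ T
      · rw [if_pos ((g2 H (cyc u h2)).2 hDT), hη']
        have h3 := loc_two hW hu0 (H30MG.over_of hu0) (two_lt_of h2) hs hδ h1 h16 hρ0 hρ hU hUM hUρ hT hcase
          hg0 (m := 1) (fun hn => absurd (by rw [hdec]; exact hDT) hn)
        rwa [if_pos (by rw [hdec]; exact hDT)] at h3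
      · have hne : (rs hle '' clS (Dc K Λ u) T).Nonempty := by
          rw [Set.nonempty_iff_ne_empty]
          exact fun h4 => hDT ((g2 H (cyc u h2)).1 h4)
        rw [if_neg hne.ne_empty]
        obtain ⟨m, hm, hmc, -⟩ := rho_of hdeg hk1 hk h (g7 H (cyc u h2) hne)
        rw [hmc]
        have h3 := loc_two hW hu0 (H30MG.over_of hu0) (two_lt_of h2) hs hδ h1 h16 hρ0 hρ hU hUM hUρ hT hcase
          hg0 (m := m) (fun _ => ?_)
        · rwa [if_neg (by rw [hdec]; exact hDT)] at h3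
        · refine isM_up hw₀ (wc_dn u) _ _ hm fun g hg => ?_
          rw [hdec]
          exact g1 H (cyc u h2)
  · have hu' : u ∈ AuxI F₁ k η n := by
      rcases hu with ⟨h, -⟩ | h
      · exact absurd h h2
      · exact h
    obtain ⟨h1, hτ, hsig⟩ := hL.2 h2
    obtain ⟨W, hW⟩ := exists_above (L := N) (Wc K Λ u)
    have hKW : dn K W = u := by
      rw [← H30CY.dn_tower (N₀ := Λ) W, hW, wc_dn]
    obtain ⟨hT, hcase⟩ := hTc W hKW
    have h3 := loc_odd hW (wc_dn u) hp2 (nc_layer hdeg hk hu hle (wc_dn u)).1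
      (cyc_aux hdeg hk hu' hle (wc_dn u) T) (hunr h2 W hKW) (H30MQ.oddP_of h2) hs h1 hτ
      (eta_class hηo h2) hsig hρ0 hρ hU hUM hUρ hT hcase
    unfold xs
    rw [if_neg h2]
    show LocCl u e μ (if Dec K (Wc K Λ u) ≤ T then s • η u
      else if ∀ g ∈ Dec K (Wc K Λ u), g ^ 2 ∈ T then (1 + s) • η u else η u)
    have e1 : s • η u = if s = 0 then 0 else η u := by
      rcases z2 s with rfl | rfl
      · rw [if_pos rfl, zero_smul]
      · rw [if_neg one_ne_zero, one_smul]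
    have e2 : (1 + s) • η u = if s = 0 then η u else 0 := by
      rcases z2 s with rfl | rfl
      · rw [if_pos rfl, add_zero, one_smul]
      · rw [if_neg one_ne_zero, H76IN.one_one, zero_smul]
    rw [e1, e2]
    exact h3

end H30IN
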