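import Pool.Agent.H30.IN.Pa

/-!
Project INF (MP_78d38b_nt, infinite case of MG): the fields `el` and `pr` of `Conf` for a layer (no row, proved).
-/

set_option autoImplicit false
set_option linter.unusedSectionVars false
open scoped Classical

open WithZero NumberField IsDedekindDomain H76PP H36CY H30MG H30CY H76AB H36MX H38RT H76MQ H76MX
open Pool.Agent.H42.PC H88AB H36IN H36MG H73P2 H76IN
open H38T1 (SC sc scu rep rep_ne sc_rep sc_mul sc_eq_zero sc_surj eo la OddP)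

namespace H30IN

variable {K F : Type} [Field K] [NumberField K] [Field F] [Algebra K F] {F₁ : IntermediateField K F}
  [NumberField F₁] [IsGalois K F₁] {η : (u : HeightOneSpectrum (𝓞 K)) → SC (Kv u)} {n k : ℕ}

theorem plC_of {C : CfgX K} {s : HeightOneSpectrum (𝓞 K) → ZMod 2}
    (hP : ∀ p : HeightOneSpectrum (𝓞 K), (2 : 𝓞 K) ∈ p.asIdeal → Sp K F p ∨ PlN F₁ η n k p)
    (hZ : ∀ v ∈ C.Z, ((2 : 𝓞 K) ∈ v.asIdeal ∧ s v = 0) ∨ v ∈ AuxI F₁ k η n) :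
    ∀ v ∈ C.Z, PlC F₁ η n k v := by
  intro v hv
  rcases hZ v hv with ⟨h, -⟩ | h
  · exact Or.inl ⟨h, hP v h⟩
  · exact Or.inr h

theorem not_ram_layer {u : HeightOneSpectrum (𝓞 K)} (hu : u ∈ AuxI F₁ k η n)
    {Λ : IntermediateField K F} [NumberField Λ] [IsGalois K Λ] {w : HeightOneSpectrum (𝓞 Λ)}
    (hw : dn K w = u) : ¬ Ram K w := by
  apply un_not_ram
  rw [hw]
  exact un_layer hu.2.1 Λ

/-- **The pairs.** -/
theorem conf_pr (hη2 : EtaTwo η) (hηo : EtaOdd η) (hdeg : DegOk K F) (hk1 : 1 ≤ k) (hk : n ≤ 2 ^ k)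
    (hP : ∀ p : HeightOneSpectrum (𝓞 K), (2 : 𝓞 K) ∈ p.asIdeal → Sp K F p ∨ PlN F₁ η n k p)
    {C : CfgX K} (hC : C.Ok) {s : HeightOneSpectrum (𝓞 K) → ZMod 2}
    (hZ : ∀ v ∈ C.Z, ((2 : 𝓞 K) ∈ v.asIdeal ∧ s v = 0) ∨ v ∈ AuxI F₁ k η n)
    (Λ : IntermediateField K F) [NumberField Λ] [IsGalois K Λ] (hle : F₁ ≤ Λ)
    (L0 N : Type) [Field L0] [NumberField L0] [Field N] [NumberField N] [Algebra K L0]
    [Algebra K N] [Algebra L0 N] [Algebra Λ N] [IsScalarTower K L0 N] [IsScalarTower K Λ N]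
    [IsGalois K L0] [IsGalois K N] (hr : ∃ r : ℕ, Module.finrank K N = 2 ^ r)
    (hgen : ∀ g : N ≃ₐ[K] N, (∀ x : L0, g (algebraMap L0 N x) = algebraMap L0 N x) →
      (∀ y : Λ, g (algebraMap Λ N y) = algebraMap Λ N y) → g = 1)
    (hsp : ∀ v ∈ C.Z, Sp K L0 v) (U : Subgroup (N ≃ₐ[K] N)) [U.Normal] (z : N ≃ₐ[K] N)
    (hz2 : z ^ 2 ∈ U)
    (hmono : ∀ x, x ∉ U → (∀ y, x * y * x⁻¹ * y⁻¹ ∈ U) → x ^ 2 ∈ U → x * z⁻¹ ∈ U)
    (M : IntermediateField K N) [NumberField M] (hM : ∀ x, x ∈ M ↔ (∀ u ∈ U, u x = x) ∧ z x = x)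
    (ρ : N) (hρ0 : ρ ≠ 0) (hρU : ∀ u ∈ U, u ρ = ρ) (hρz : z ρ = -ρ) (μ : M) (hμ : (μ : N) = ρ ^ 2) :
    ∃ i : Ix F₁, LocZ C (fun u => LpM η (s u) u) (fun u => xs η (s u) u i) μ := by
  obtain ⟨r, hr⟩ := hr
  have hPC := plC_of hP hZ
  have key : ∀ u ∈ C.Z, ∀ V : HeightOneSpectrum (𝓞 N), dn K V = u →
      (∀ h ∈ Dec K V, AlgEquiv.restrictNormalHom Λ h ∈ TU L0 Λ U ↔ h ∈ U) ∧
        DCase V U M ρ := by
    intro u hu V hKV
    have hspV : Sp K L0 (dn K V) := by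
      rw [hKV]
      exact hsp u hu
    refine ⟨fun h hh => mem_TU hgen hspV hh, ?_⟩
    refine dcase_of hr hz2 hmono (nc_up (F := Λ) hgen hspV ?_) (fun x => (hM _).1 x.2) hρU hρz
    exact nc_layer hdeg hk (hPC u hu) hle (by rw [H30CY.dn_tower, hKV])
  have cyc : ∀ u : HeightOneSpectrum (𝓞 K), (2 : 𝓞 K) ∈ u.asIdeal →
      CyT (Dc K Λ u) (TU L0 Λ U) := by
    intro u h2
    obtain ⟨V, hV⟩ := exists_above (L := N) (Wc K Λ u)
    have hKV : dn K V = u := by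
      rw [← H30CY.dn_tower (K := K) (N₀ := Λ) V, hV, wc_dn]
    obtain ⟨h3, h4⟩ := key u (hC.mem2 u h2) V hKV
    have h5 := cyT_of (F := Λ) h3 h4
    rw [hV] at h5
    exact h5
  refine ⟨⟨Λ, inferInstance, inferInstance, hle, TU L0 Λ U, cyc⟩, fun u hu A B e he hL => ?_⟩
  refine loc_allI hη2 hηo hdeg hk1 hk (hPC u hu) hle cyc (fun h2 V hKV => ?_) hρ0 hμ.symm inferInstance
    (fun h hh x => ((hM _).1 x.2).1 h hh) hρU (key u hu) he hL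
  refine H36AB.unram_comp hgen ?_ ?_
  · apply split_unram
    rw [H30CY.dn_tower, hKV]
    exact hsp u hu
  · refine not_ram_layer (F₁ := F₁) (η := η) (n := n) (k := k) ?_ ((H30CY.dn_tower V).trans hKV)
    rcases hPC u hu with ⟨h, -⟩ | h
    · exact absurd h h2
    · exact h

/-- **The elements of `K`.** -/
theorem conf_el (hη2 : EtaTwo η) (hηo : EtaOdd η) (hdeg : DegOk K F) (hk1 : 1 ≤ k) (hk : n ≤ 2 ^ k)
    (hP : ∀ p : HeightOneSpectrum (𝓞 K), (2 : 𝓞 K) ∈ p.asIdeal → Sp K F p ∨ PlN F₁ η n k p)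
    {C : CfgX K} {s : HeightOneSpectrum (𝓞 K) → ZMod 2}
    (hZ : ∀ v ∈ C.Z, ((2 : 𝓞 K) ∈ v.asIdeal ∧ s v = 0) ∨ v ∈ AuxI F₁ k η n)
    (Λ : IntermediateField K F) [NumberField Λ] [IsGalois K Λ] (hle : F₁ ≤ Λ) (d : 𝓞 K)
    (hd : d ≠ 0) (hsq : IsSquare (algebraMap K Λ (d : K))) :
    ∃ i : Ix F₁, LocZ C (fun u => LpM η (s u) u) (fun u => xs η (s u) u i) (d : K) := by
  have hPC := plC_of hP hZ
  obtain ⟨ρ, hρ⟩ := hsq
  have hd0 : (d : K) ≠ 0 := fun h => hd (RingOfIntegers.coe_eq_zero_iff.1 h)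
  have hρ' : ρ ^ 2 = algebraMap K Λ (d : K) := by rw [hρ, sq]
  have hρ0 : ρ ≠ 0 := by
    rintro rfl
    rw [mul_zero] at hρ
    exact hd0 ((map_eq_zero _).1 hρ)
  have hres : ∀ (V : HeightOneSpectrum (𝓞 Λ)), ∀ h ∈ Dec K V,
      AlgEquiv.restrictNormalHom Λ h ∈ stR K ρ ↔ h ∈ stR K ρ := fun V h _ => by
    rw [res_self]
  have cyc : ∀ u : HeightOneSpectrum (𝓞 K), (2 : 𝓞 K) ∈ u.asIdeal → CyT (Dc K Λ u) (stR K ρ) := by
    intro u _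
    have h1 := cyT_of (F := Λ) (hres (Wc K Λ u)) (stR_dcase hρ' (Wc K Λ u))
    rw [H30MG.dn_self] at h1
    exact h1
  refine ⟨⟨Λ, inferInstance, inferInstance, hle, stR K ρ, cyc⟩, fun u hu A B e he hL => ?_⟩
  refine loc_allI (M := K) (N := Λ) hη2 hηo hdeg hk1 hk (hPC u hu) hle cyc (fun h2 V hKV => ?_) hρ0 hρ'
    (stR_normal hρ') (fun h _ x => h.commutes x) (fun h hh => hh)
    (fun V _ => ⟨hres V, stR_dcase hρ' V⟩) he hL
  refine not_ram_layer (F₁ := F₁) (η := η) (n := n) (k := k) ?_ hKV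
  rcases hPC u hu with ⟨h, -⟩ | h
  · exact absurd h h2
  · exact h

end H30IN
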